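import Pool.Agent.Lib.MP_ab8df0_nt.A.Twr

/-! Square classes with even valuation outside 6. -/

namespace Pool.Agent.Lib.MP_ab8df0_nt.A.K3

open Pool.Agent.Lib.MP_ab8df0_nt.A

/-- Lower coefficients of the polynomial. -/
def fl : List ℤ := [-3, 0, 0]

/-- The modulus. -/
def m : ℕ := nat_lit 0x25be07d855f3f4cc5

/-- The roots modulo the modulus. -/
def ρ : List ℕ := [nat_lit 0x2163e98a9ece64e64, nat_lit 0x119221144b1af64e0, nat_lit 0x18860511c1fe8e646]

theorem a0 : CovA fl 6 4 m 2 ρ 0 (0 + 5) := covA _ _ _ _ _ _ _ _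
  [(0, [])] (by decide +kernel)

theorem ra {F : Type*} [Field F] [NumberField F] {α : NumberField.RingOfIntegers F} (h : Gen α fl) :
    Range F 6 4 0 5 :=
  have hs : splitOK fl m 2 ρ = true := by decide +kernel
  a0.range h hs

open NumberField IsDedekindDomain

variable {F : Type*} [Field F] [NumberField F] {α : 𝓞 F}

theorem c2 (h : Gen α fl) : Cnt F 2 2 :=
  h.cnt (m := m) (r := 2) (ρ := ρ) Nat.prime_two (l := [(⟨[1], 1, 1, [1], [3, 1]⟩, 1), (⟨[1, 1], 1, 2, [1], [1, 1, 1]⟩, 1)]) (by decide +kernel)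

theorem c3 (h : Gen α fl) : Cnt F 3 1 :=
  h.cnt (m := m) (r := 2) (ρ := ρ) Nat.prime_three (l := [(⟨[0], 3, 1, [1], [0, 1]⟩, 1)]) (by decide +kernel)

/-- The generators. -/
def g : Fin 5 → List ℤ := ![[-1],
  [0, 1],
  [2],
  [-1, 1],
  [1, 1]]

theorem SU (h : Gen α fl) {ξ : F} (h0 : ξ ≠ 0)
    (hξ : ∀ v : HeightOneSpectrum (𝓞 F), ((6 : ℕ) : 𝓞 F) ∉ v.asIdeal →
      ∃ k : ℤ, v.valuation F ξ = WithZero.exp (2 * k)) :
    ∃ (e : Fin 5 → Bool) (u : F), ξ = (∏ i, if e i then ev (α : F) (g i) else 1) * u ^ 2 :=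
  h.SU (M := 4) (m := m) (r := 2) (ρ := ρ) (D := 243) (dF := 243)
    (bs := [([1], 1, [-1, 3, -3]), ([0, 1], 1, [-3, 0, 0]), ([0, 0, 1], 1, [-9, 0, 0])])
    (K := 10000000000000000000000000000000000000000) (E := 10000000000000000000000000000000000000000) (zs := [⟨-7211247851537041911608191553900547941959, 12490247664834064794131795437632536349931⟩, ⟨-7211247851537041911608191553900547941959, -12490247664834064794131795437632536349931⟩]) (T := 15)
    (c := ![(239, 50), (137, 29), (61, 4), (73, 54), (73, 25)]) (by decide +kernel)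
    ((c2 h).mul (c3 h)) (ra h) h0 hξ

instance : Fact (Irreducible (mq fl)) :=
  ⟨irr_of_eis Nat.prime_three (by decide +kernel)⟩

theorem re0 (h : Gen α fl) : ∃ φ : F →+* ℝ, ((1442249570307408382321638310780 : ℤ) : ℝ) / ((10 ^ 30 : ℕ) : ℝ) < φ α ∧
    φ α < ((1442249570307408382321638310781 : ℤ) : ℝ) / ((10 ^ 30 : ℕ) : ℝ) := h.real (by decide +kernel)


end Pool.Agent.Lib.MP_ab8df0_nt.A.K3
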